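import Pool.Agent.K3h81.RL.Stm
import Pool.Agent.K3h25.RS.Trans

/-!
# The Frobenius automorphism fixes the prime ideals over `v`
-/

set_option autoImplicit false

open NumberField IsDedekindDomain

noncomputable section

namespace Pool.Agent.K3h90.RL

open Pool.Agent.K3h30.RS Pool.Agent.K3h81.RL Pool.Agent.K3h25.RS

/-- The Frobenius automorphism fixes the prime ideals over `v`. -/
theorem t_FIXF : S_FIXF := by
  intro F H G _ _ _ _ _ _ _ _ _ v γ hγ w hw
  obtain ⟨w', -, hv⟩ := (t_TRANS F H G v w hw).1 γ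
  have hq : Ideal.absNorm v.asIdeal ≠ 0 := by
    intro h0
    exact v.ne_bot (Ideal.absNorm_eq_zero_iff.1 h0)
  have hle : w.asIdeal ≤ w'.asIdeal := by
    intro x hx
    have h1 : w.valuation H (algebraMap (𝓞 H) H x) < 1 :=
      (HeightOneSpectrum.valuation_lt_one_iff_mem w x).2 hx
    have h2 := hγ w hw x
    have h3 : w.valuation H ((x : H) ^ Ideal.absNorm v.asIdeal) < 1 := by
      rw [map_pow]
      exact pow_lt_one' h1 hq
    have h4 : w.valuation H (γ • (x : H)) < 1 := by
      have h := Valuation.map_add (w.valuation H)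
        (γ • (x : H) - (x : H) ^ (Ideal.absNorm v.asIdeal)) ((x : H) ^ (Ideal.absNorm v.asIdeal))
      rw [sub_add_cancel] at h
      exact lt_of_le_of_lt h (max_lt h2 h3)
    have h5 : w'.valuation H (algebraMap (𝓞 H) H x) < 1 := by
      rw [hv]
      exact h4
    exact (HeightOneSpectrum.valuation_lt_one_iff_mem w' x).1 h5
  have heq : w = w' := HeightOneSpectrum.ext (w.isMaximal.eq_of_le w'.isPrime.ne_top hle)
  intro x
  rw [← hv x, ← heq]

end Pool.Agent.K3h90.RL
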